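import Pool.Agent.P8H63.SE.EllA

/-!
# Project SE (helper40): package ELL, elliptic logarithms of points with large real abscissa (helper63)
-/

set_option autoImplicit false

open Filter
open scoped Topology PeriodPair

namespace Pool.Agent.P8H63.SE

open H667R3

/-- `t ^ (-1/2)` -/
noncomputable def tau (t : ℝ) : ℂ := ((t ^ (-(1 / 2) : ℝ) : ℝ) : ℂ)

theorem tau_sq {t : ℝ} (ht : 0 < t) : tau t ^ 2 = 1 / (t : ℂ) := by
  rw [tau, ← Complex.ofReal_pow, ← Real.rpow_natCast, ← Real.rpow_mul ht.le]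
  norm_num
  rw [Real.rpow_neg_one]
  push_cast
  rfl

theorem tau_tendsto : Tendsto tau atTop (𝓝 0) := by
  have h := tendsto_rpow_neg_atTop (y := (1 / 2 : ℝ)) (by norm_num)
  have h2 := (Complex.continuous_ofReal.tendsto 0).comp h
  rw [Complex.ofReal_zero] at h2
  exact h2

theorem tau_ne {t : ℝ} (ht : 0 < t) : tau t ≠ 0 := by
  rw [tau]
  exact_mod_cast (Real.rpow_pos_of_pos ht _).ne'

theorem tau_inv {t : ℝ} (ht : 0 < t) : (tau t)⁻¹ = ((t ^ (1 / 2 : ℝ) : ℝ) : ℂ) := by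
  rw [tau, ← Complex.ofReal_inv, ← Real.rpow_neg ht.le, neg_neg]

theorem hasDerivAt_tau {t : ℝ} (ht : 0 < t) :
    HasDerivAt tau ((-(1 / 2) * t ^ (-(1 / 2) - 1 : ℝ) : ℝ) : ℂ) t :=
  (Real.hasDerivAt_rpow_const (x := t) (p := (-(1 / 2) : ℝ)) (Or.inl ht.ne')).ofReal_comp

theorem tendsto_one_div : Tendsto (fun t : ℝ => 1 / (t : ℂ)) atTop (𝓝 0) := by
  have h2 := (Complex.continuous_ofReal.tendsto 0).comp tendsto_inv_atTop_zero
  rw [Complex.ofReal_zero] at h2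
  refine h2.congr fun t => ?_
  simp

/-- the derivative of the curve -/
noncomputable def dz (G : ℂ → ℂ) (t : ℝ) : ℂ :=
  ((-(1 / 2) * t ^ (-(1 / 2) - 1 : ℝ) : ℝ) : ℂ) * G (1 / (t : ℂ)) +
    tau t * (-((t : ℂ) ^ 2)⁻¹ * deriv G (1 / (t : ℂ)))

theorem hasDerivAt_curve {G : ℂ → ℂ} (hG : AnalyticAt ℂ G 0) :
    ∀ᶠ t : ℝ in atTop, HasDerivAt (fun t : ℝ => tau t * G (1 / (t : ℂ))) (dz G t) t := by
  filter_upwards [eventually_gt_atTop 0, tendsto_one_div.eventually hG.eventually_analyticAt] with t ht hGt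
  have h1 : HasDerivAt (fun y : ℝ => 1 / (y : ℂ)) (-((t : ℂ) ^ 2)⁻¹) t := by
    have h2 := (hasDerivAt_inv (x := (t : ℂ)) (by exact_mod_cast ht.ne')).comp_ofReal
    refine h2.congr_of_eventuallyEq (Eventually.of_forall fun y => ?_)
    simp
  have h2 := HasDerivAt.scomp t hGt.differentiableAt.hasDerivAt h1
  have h3 := (hasDerivAt_tau ht).mul h2
  exact h3

theorem dz_tendsto {G : ℂ → ℂ} (hG : AnalyticAt ℂ G 0) (hG0 : G 0 = 1) :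
    Tendsto (fun t : ℝ => dz G t * ((t ^ (3 / 2 : ℝ) : ℝ) : ℂ)) atTop (𝓝 (-(1 / 2))) := by
  have h1 : Tendsto (fun t : ℝ => -(1 / 2) * G (1 / (t : ℂ)) - 1 / (t : ℂ) * deriv G (1 / (t : ℂ))) atTop
      (𝓝 (-(1 / 2) * 1 - 0 * deriv G 0)) := by
    have h2 : Tendsto (fun t : ℝ => G (1 / (t : ℂ))) atTop (𝓝 1) := by
      have := hG.continuousAt.tendsto
      rw [hG0] at this
      exact this.comp tendsto_one_div
    have h3 : Tendsto (fun t : ℝ => deriv G (1 / (t : ℂ))) atTop (𝓝 (deriv G 0)) :=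
      hG.deriv.continuousAt.tendsto.comp tendsto_one_div
    exact (h2.const_mul _).sub (tendsto_one_div.mul h3)
  rw [mul_one, zero_mul, sub_zero] at h1
  refine h1.congr' ?_
  filter_upwards [eventually_gt_atTop 0] with t ht
  have e1 : ((-(1 / 2) * t ^ (-(1 / 2) - 1 : ℝ) : ℝ) : ℂ) * ((t ^ (3 / 2 : ℝ) : ℝ) : ℂ) = -(1 / 2) := by
    rw [← Complex.ofReal_mul, mul_assoc, ← Real.rpow_add ht]
    norm_num
  have e2 : tau t * ((t ^ (3 / 2 : ℝ) : ℝ) : ℂ) = (t : ℂ) := by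
    rw [tau, ← Complex.ofReal_mul, ← Real.rpow_add ht]
    norm_num
  have htc : (t : ℂ) ≠ 0 := by exact_mod_cast ht.ne'
  have e3 : dz G t * ((t ^ (3 / 2 : ℝ) : ℝ) : ℂ) =
      (((-(1 / 2) * t ^ (-(1 / 2) - 1 : ℝ) : ℝ) : ℂ) * ((t ^ (3 / 2 : ℝ) : ℝ) : ℂ)) * G (1 / (t : ℂ)) -
        (tau t * ((t ^ (3 / 2 : ℝ) : ℝ) : ℂ)) * (((t : ℂ) ^ 2)⁻¹ * deriv G (1 / (t : ℂ))) := by
    rw [dz]
    ring
  rw [e3, e1, e2]
  field_simp

theorem cubic_pos (g2 g3 : ℝ) : ∀ᶠ t : ℝ in atTop, 0 < 4 * t ^ 3 - g2 * t - g3 := by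
  filter_upwards [eventually_ge_atTop 1, eventually_ge_atTop |g2|, eventually_ge_atTop |g3|] with t h1 h2 h3
  have e1 : g2 * t ≤ t * t := by
    have := le_abs_self g2
    exact mul_le_mul_of_nonneg_right (this.trans h2) (by linarith)
  have e2 : g3 ≤ t := (le_abs_self g3).trans h3
  have e3 : t * t ≤ t ^ 3 := by nlinarith
  have e4 : t ≤ t * t := by nlinarith
  nlinarith

theorem ell (Λ : PeriodPair) (g2 g3 : ℝ) (hg2 : Λ.g₂ = (g2 : ℂ)) (hg3 : Λ.g₃ = (g3 : ℂ)) :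
    ∃ (F₀ F₁ : ℝ → ℂ) (G₀ G₁ : ℂ → ℂ), AnalyticAt ℂ G₀ 0 ∧ AnalyticAt ℂ G₁ 0 ∧
    (∀ᶠ t : ℝ in atTop,
      HasDerivAt F₀ (((4 * t ^ 3 - g2 * t - g3) ^ (-(1 / 2) : ℝ) : ℝ) : ℂ) t ∧
      F₀ t = ((t ^ (-(1 / 2) : ℝ) : ℝ) : ℂ) * G₀ (1 / (t : ℂ)) ∧
      HasDerivAt F₁ ((t * (4 * t ^ 3 - g2 * t - g3) ^ (-(1 / 2) : ℝ) : ℝ) : ℂ) t ∧
      F₁ t = ((t ^ ((1 / 2) : ℝ) : ℝ) : ℂ) * G₁ (1 / (t : ℂ)) ∧
      ∀ z : ℂ, z ∉ Λ.lattice → ℘[Λ] z = (t : ℂ) → ∃ ε n₁ n₂ : ℤ, (ε = 1 ∨ ε = -1) ∧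
        z = -ε * F₀ t + n₁ * Λ.ω₁ + n₂ * Λ.ω₂ ∧
        zeta Λ z = ε * F₁ t + n₁ * (2 * zeta Λ (Λ.ω₁ / 2)) + n₂ * (2 * zeta Λ (Λ.ω₂ / 2))) := by
  obtain ⟨G, G₁, hG, hG₁, hG0, hinv⟩ := inv_wp Λ
  have hcore : ∀ᶠ t : ℝ in atTop, 0 < t ∧ tau t * G (1 / (t : ℂ)) ∉ Λ.lattice ∧
      ℘[Λ] (tau t * G (1 / (t : ℂ))) = t ∧
      zeta Λ (tau t * G (1 / (t : ℂ))) = ((t ^ (1 / 2 : ℝ) : ℝ) : ℂ) * G₁ (1 / (t : ℂ)) := by
    filter_upwards [eventually_gt_atTop 0, tau_tendsto.eventually hinv] with t ht h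
    have h1 := h (tau_ne ht)
    rw [tau_sq ht] at h1
    refine ⟨ht, h1.1, ?_, ?_⟩
    · rw [h1.2.1]
      simp
    · rw [h1.2.2, tau_inv ht]
  obtain ⟨T, hT⟩ := eventually_atTop.1 hcore
  have hsign := (Complex.continuous_re.tendsto _).comp (dz_tendsto hG hG0)
  have hsign' : ∀ᶠ t : ℝ in atTop, (dz G t * ((t ^ (3 / 2 : ℝ) : ℝ) : ℂ)).re < 0 := by
    have h1 : (-(1 / 2) : ℂ).re < 0 := by norm_num
    exact hsign.eventually_lt_const h1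
  refine ⟨fun t => -(tau t * G (1 / (t : ℂ))), fun t => ((t ^ (1 / 2 : ℝ) : ℝ) : ℂ) * G₁ (1 / (t : ℂ)),
    fun s => - G s, G₁, hG.neg, hG₁, ?_⟩
  filter_upwards [eventually_gt_atTop T, hasDerivAt_curve hG, hsign', cubic_pos g2 g3] with t htT hz hs hq
  obtain ⟨ht, hzL, hwp, hzeta⟩ := hT t htT.le
  have hnear : ∀ᶠ y : ℝ in 𝓝 t, T < y := lt_mem_nhds htT
  -- the derivative
  have hD : dz G t = -(((4 * t ^ 3 - g2 * t - g3) ^ (-(1 / 2) : ℝ) : ℝ) : ℂ) := by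
    have h1 : HasDerivAt (fun y : ℝ => ℘[Λ] (tau y * G (1 / (y : ℂ)))) (dz G t • ℘'[Λ] (tau t * G (1 / (t : ℂ)))) t :=
      HasDerivAt.scomp t (hasDerivAt_weierstrassP Λ hzL) hz
    have h2 : HasDerivAt (fun y : ℝ => (y : ℂ)) 1 t := Complex.ofRealCLM.hasDerivAt
    have h3 : dz G t • ℘'[Λ] (tau t * G (1 / (t : ℂ))) = 1 := by
      refine h1.unique (h2.congr_of_eventuallyEq ?_)
      filter_upwards [hnear] with y hy
      exact (hT y hy.le).2.2.1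
    have h4 := Λ.derivWeierstrassP_sq _ hzL
    rw [hwp, hg2, hg3] at h4
    set q : ℝ := 4 * t ^ 3 - g2 * t - g3 with hqdef
    have h5 : ((q : ℝ) : ℂ) = ℘'[Λ] (tau t * G (1 / (t : ℂ))) ^ 2 := by
      rw [h4, hqdef]
      push_cast
      ring
    have hR : (q ^ (-(1 / 2) : ℝ)) ^ 2 * q = 1 := by
      rw [← Real.rpow_natCast, ← Real.rpow_mul hq.le]
      norm_num
      rw [Real.rpow_neg_one]
      exact inv_mul_cancel₀ hq.ne'
    have hRc : (((q ^ (-(1 / 2) : ℝ) : ℝ)) : ℂ) ^ 2 * (q : ℂ) = 1 := by exact_mod_cast hR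
    have h6 : dz G t ^ 2 * (q : ℂ) = 1 := by
      rw [h5, ← mul_pow, ← smul_eq_mul, h3, one_pow]
    have hqc : (q : ℂ) ≠ 0 := by exact_mod_cast hq.ne'
    have h7 : dz G t ^ 2 = (((q ^ (-(1 / 2) : ℝ) : ℝ)) : ℂ) ^ 2 := mul_right_cancel₀ hqc (h6.trans hRc.symm)
    rcases sq_eq_sq_iff_eq_or_eq_neg.1 h7 with h8 | h8
    · exfalso
      rw [h8, ← Complex.ofReal_mul, Complex.ofReal_re] at hs
      have : 0 < q ^ (-(1 / 2) : ℝ) * t ^ (3 / 2 : ℝ) := mul_pos (Real.rpow_pos_of_pos hq _) (Real.rpow_pos_of_pos ht _)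
      linarith
    · exact h8
  refine ⟨?_, ?_, ?_, rfl, ?_⟩
  · refine hz.neg.congr_deriv ?_
    rw [hD, neg_neg]
  · simp only [tau]
    ring
  · have h1 : HasDerivAt (fun y : ℝ => zeta Λ (tau y * G (1 / (y : ℂ)))) (dz G t • -℘[Λ] (tau t * G (1 / (t : ℂ)))) t :=
      HasDerivAt.scomp t (hasDerivAt_zeta Λ hzL) hz
    have h2 : HasDerivAt (fun y : ℝ => ((y ^ (1 / 2 : ℝ) : ℝ) : ℂ) * G₁ (1 / (y : ℂ)))
        (dz G t • -℘[Λ] (tau t * G (1 / (t : ℂ)))) t := by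
      refine h1.congr_of_eventuallyEq ?_
      filter_upwards [hnear] with y hy
      exact (hT y hy.le).2.2.2.symm
    refine h2.congr_deriv ?_
    rw [hwp, hD, smul_eq_mul]
    push_cast
    ring
  · intro z hzn hzt
    have e1 := eta_eq Λ Λ.ω₁_mem_lattice Λ.ω₁_div_two_notMem_lattice
    have e2 := eta_eq Λ Λ.ω₂_mem_lattice Λ.ω₂_div_two_notMem_lattice
    have heta : ∀ n₁ n₂ : ℤ, eta Λ (n₁ * Λ.ω₁ + n₂ * Λ.ω₂) =
        n₁ * (2 * zeta Λ (Λ.ω₁ / 2)) + n₂ * (2 * zeta Λ (Λ.ω₂ / 2)) := by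
      intro n₁ n₂
      rw [eta_add Λ (intCast_mul_mem Λ Λ.ω₁_mem_lattice _) (intCast_mul_mem Λ Λ.ω₂_mem_lattice _),
        eta_zsmul Λ Λ.ω₁_mem_lattice, eta_zsmul Λ Λ.ω₂_mem_lattice, e1, e2]
    rcases (wp_eq_iff Λ hzn hzL).1 (hzt.trans hwp.symm) with h | h
    · obtain ⟨n₁, n₂, hn⟩ := PeriodPair.mem_lattice.1 h
      refine ⟨-1, n₁, n₂, Or.inr rfl, ?_, ?_⟩
      · push_cast
        linear_combination (-1 : ℂ) * hn
      · have h1 : -(tau t * G (1 / (t : ℂ))) ∉ Λ.lattice := fun h' => hzL (by simpa using neg_mem h')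
        have h2 := zeta_add_coe Λ h1 h
        rw [← hn, heta, zeta_neg, hzeta] at h2
        have h3 : -(tau t * G (1 / (t : ℂ))) + (n₁ * Λ.ω₁ + n₂ * Λ.ω₂) = z := by
          linear_combination hn
        rw [h3] at h2
        rw [h2]
        push_cast
        ring
    · obtain ⟨n₁, n₂, hn⟩ := PeriodPair.mem_lattice.1 h
      refine ⟨1, n₁, n₂, Or.inl rfl, ?_, ?_⟩
      · push_cast
        linear_combination (-1 : ℂ) * hn
      · have h2 := zeta_add_coe Λ hzL h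
        rw [← hn, heta, hzeta] at h2
        have h3 : tau t * G (1 / (t : ℂ)) + (n₁ * Λ.ω₁ + n₂ * Λ.ω₂) = z := by
          linear_combination hn
        rw [h3] at h2
        rw [h2]
        push_cast
        ring

end Pool.Agent.P8H63.SE
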