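import Pool.Agent.P8H40.SE.Stm
import Pool.Agent.P8H63.SE.EllB

/-!
# Project SE (helper40): package ELL (helper63)
-/

set_option autoImplicit false

namespace Pool.Agent.P8H63.SE

theorem ell_thm : Pool.Agent.P8H40.SE.S_ELL := fun Λ g2 g3 h2 h3 => ell Λ g2 g3 h2 h3

end Pool.Agent.P8H63.SE
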