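import Mathlib

/-!
# Project SE (helper40): package ELL, germs of analytic functions (helper63)
-/

set_option autoImplicit false

open Filter
open scoped Topology

namespace Pool.Agent.P8H63.SE

theorem ev_of_sq {P : ℂ → Prop} (h : ∀ᶠ z in 𝓝 (0 : ℂ), P (z ^ 2)) : ∀ᶠ w in 𝓝 (0 : ℂ), P w := by
  rw [Metric.eventually_nhds_iff] at h ⊢
  obtain ⟨ε, hε, h⟩ := h
  refine ⟨ε ^ 2, by positivity, fun w hw => ?_⟩
  obtain ⟨z, hz⟩ := IsAlgClosed.exists_pow_nat_eq w (n := 2) (by norm_num)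
  rw [← hz]
  apply h
  rw [dist_zero_right] at hw ⊢
  rw [← hz, norm_pow] at hw
  exact lt_of_pow_lt_pow_left₀ 2 hε.le hw

/-- an even analytic germ is an analytic germ of the square -/
theorem even_germ {f : ℂ → ℂ} (hf : AnalyticAt ℂ f 0) (he : ∀ᶠ z in 𝓝 (0 : ℂ), f (-z) = f z) :
    ∃ g : ℂ → ℂ, AnalyticAt ℂ g 0 ∧ ∀ᶠ z in 𝓝 (0 : ℂ), f z = g (z ^ 2) := by
  obtain ⟨p, hp⟩ := hf
  have h1 := hasFPowerSeriesAt_iff.1 hp
  have hodd : ∀ n, Odd n → p.coeff n = 0 := by
    have hq : HasFPowerSeriesAt f (FormalMultilinearSeries.ofScalars ℂ (fun n => (-1 : ℂ) ^ n * p.coeff n)) 0 := by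
      rw [hasFPowerSeriesAt_iff]
      have hneg : Tendsto (fun z : ℂ => -z) (𝓝 0) (𝓝 0) := by
        simpa using (continuous_neg (G := ℂ)).tendsto 0
      filter_upwards [hneg.eventually h1, he] with z hz hez
      rw [zero_add] at hz ⊢
      rw [hez] at hz
      have h2 : (fun n : ℕ => z ^ n • (FormalMultilinearSeries.ofScalars ℂ
          (fun n => (-1 : ℂ) ^ n * p.coeff n)).coeff n) = fun n => (-z) ^ n • p.coeff n := by
        funext n
        rw [FormalMultilinearSeries.coeff_ofScalars, neg_pow, smul_eq_mul, smul_eq_mul]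
        ring
      rw [h2]
      exact hz
    intro n hn
    have h2 := congrArg (fun q : FormalMultilinearSeries ℂ ℂ ℂ => q.coeff n) (hp.eq_formalMultilinearSeries hq)
    simp only [FormalMultilinearSeries.coeff_ofScalars, hn.neg_one_pow] at h2
    have h3 : (2 : ℂ) * p.coeff n = 0 := by linear_combination h2
    simpa using h3
  have heven : ∀ᶠ z in 𝓝 (0 : ℂ), HasSum (fun n : ℕ => (z ^ 2) ^ n • p.coeff (2 * n)) (f z) := by
    filter_upwards [h1] with z hz
    rw [zero_add] at hz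
    have hinj : Function.Injective (fun n : ℕ => 2 * n) := fun a b h => by
      have h' : 2 * a = 2 * b := h
      omega
    have h2 := (hinj.hasSum_iff (f := fun n => z ^ n • p.coeff n) (a := f z) (fun n hn => ?_)).2 hz
    · have h3 : (fun n : ℕ => (z ^ 2) ^ n • p.coeff (2 * n)) =
          (fun n => z ^ n • p.coeff n) ∘ (fun n : ℕ => 2 * n) := by
        funext n
        simp only [Function.comp]
        rw [pow_mul]
      rw [h3]
      exact h2
    · have hn' : Odd n := by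
        rcases Nat.even_or_odd' n with ⟨k, rfl | rfl⟩
        · exact absurd ⟨k, rfl⟩ hn
        · exact ⟨k, rfl⟩
      show z ^ n • p.coeff n = 0
      rw [hodd n hn', smul_zero]
  refine ⟨fun w => ∑' n : ℕ, w ^ n • p.coeff (2 * n), ?_, ?_⟩
  · refine ⟨FormalMultilinearSeries.ofScalars ℂ (fun n => p.coeff (2 * n)), ?_⟩
    rw [hasFPowerSeriesAt_iff]
    apply ev_of_sq
    filter_upwards [heven] with z hz
    rw [zero_add]
    simp only [FormalMultilinearSeries.coeff_ofScalars]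
    exact hz.summable.hasSum
  · filter_upwards [heven] with z hz
    exact hz.tsum_eq.symm

/-- local inversion of `w / U(w)` -/
theorem inv_germ {U : ℂ → ℂ} (hU : AnalyticAt ℂ U 0) (h1 : U 0 = 1) :
    ∃ ψ : ℂ → ℂ, AnalyticAt ℂ ψ 0 ∧ ψ 0 = 0 ∧ ∀ᶠ s in 𝓝 (0 : ℂ), ψ s = s * U (ψ s) := by
  have hU0 : U 0 ≠ 0 := by rw [h1]; exact one_ne_zero
  have hφ : AnalyticAt ℂ (fun w => w / U w) 0 := analyticAt_id.div hU hU0
  have hd : HasDerivAt (fun w => w / U w) 1 0 := by
    have := (hasDerivAt_id (0 : ℂ)).fun_div hU.differentiableAt.hasDerivAt hU0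
    refine this.congr_deriv ?_
    simp [h1]
  have hd' : deriv (fun w => w / U w) 0 ≠ 0 := by rw [hd.deriv]; exact one_ne_zero
  have e0 : (0 : ℂ) / U 0 = 0 := zero_div _
  have ha := hφ.analyticAt_localInverse hd'
  have hr := HasStrictDerivAt.eventually_right_inverse hφ.hasStrictDerivAt hd'
  have hi : hφ.hasStrictDerivAt.localInverse _ _ _ hd' ((0 : ℂ) / U 0) = 0 :=
    HasStrictFDerivAt.localInverse_apply_image ..
  rw [e0] at ha hr hi
  refine ⟨_, ha, hi, ?_⟩
  have hc : Tendsto (fun s => U (hφ.hasStrictDerivAt.localInverse _ _ _ hd' s)) (𝓝 0) (𝓝 1) := by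
    have h2 : ContinuousAt U (hφ.hasStrictDerivAt.localInverse _ _ _ hd' 0) := by
      rw [hi]; exact hU.continuousAt
    have h3 := h2.comp ha.continuousAt
    have h4 := h3.tendsto
    simp only [Function.comp, hi, h1] at h4
    exact h4
  filter_upwards [hr, hc.eventually_ne one_ne_zero] with s hs hs'
  rw [div_eq_iff hs'] at hs
  exact hs

/-- square roots of analytic germs -/
theorem root_germ {V : ℂ → ℂ} (hV : AnalyticAt ℂ V 0) (h1 : V 0 = 1) :
    ∃ G : ℂ → ℂ, AnalyticAt ℂ G 0 ∧ G 0 = 1 ∧ ∀ᶠ s in 𝓝 (0 : ℂ), G s ^ 2 = V s := by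
  refine ⟨fun s => Complex.exp (Complex.log (V s) / 2), ?_, ?_, ?_⟩
  · refine AnalyticAt.cexp ?_
    refine AnalyticAt.div (hV.clog ?_) analyticAt_const two_ne_zero
    rw [h1]
    exact Complex.one_mem_slitPlane
  · simp [h1]
  · have hc : Tendsto V (𝓝 0) (𝓝 1) := by
      have := hV.continuousAt.tendsto
      rwa [h1] at this
    filter_upwards [hc.eventually_ne one_ne_zero] with s hs
    rw [← Complex.exp_nat_mul]
    have : ((2 : ℕ) : ℂ) * (Complex.log (V s) / 2) = Complex.log (V s) := by push_cast; ring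
    rw [this, Complex.exp_log hs]

end Pool.Agent.P8H63.SE
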