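import Pool.Agent.H667R3.W7
import Pool.Agent.P8H63.SE.Germ

/-!
# Project SE (helper40): package ELL, the inverse of `℘` near the pole (helper63)
-/

set_option autoImplicit false

open Filter
open scoped Topology PeriodPair

namespace Pool.Agent.P8H63.SE

open H667R3

variable (Λ : PeriodPair)

theorem ev_notMem : ∀ᶠ z in 𝓝 (0 : ℂ), z ≠ 0 → z ∉ Λ.lattice := by
  filter_upwards [Λ.compl_lattice_sdiff_singleton_mem_nhds 0] with z hz hz0 hzL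
  exact hz ⟨hzL, hz0⟩

theorem eta_eq {l : ℂ} (hl : l ∈ Λ.lattice) (h : l / 2 ∉ Λ.lattice) : eta Λ l = 2 * zeta Λ (l / 2) := by
  have h1 : -(l / 2) ∉ Λ.lattice := fun h' => h (by simpa using neg_mem h')
  have h2 := zeta_add_coe Λ h1 hl
  have h3 : -(l / 2) + l = l / 2 := by ring
  rw [h3, zeta_neg] at h2
  linear_combination (-1 : ℂ) * h2

theorem wp_even_germ : ∃ U : ℂ → ℂ, AnalyticAt ℂ U 0 ∧ U 0 = 1 ∧
    ∀ᶠ z in 𝓝 (0 : ℂ), z ≠ 0 → ℘[Λ] z = U (z ^ 2) / z ^ 2 := by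
  have hP := Λ.analyticAt_weierstrassPExcept 0
  have hu : AnalyticAt ℂ (fun z => 1 + z ^ 2 * Λ.weierstrassPExcept 0 z) 0 :=
    analyticAt_const.add ((analyticAt_id.pow 2).mul hP)
  obtain ⟨U, hU, hUe⟩ := even_germ hu (Eventually.of_forall fun z => by
    rw [Λ.weierstrassPExcept_neg, neg_zero, neg_sq])
  have h0 := hUe.self_of_nhds
  refine ⟨U, hU, ?_, ?_⟩
  · simpa using h0.symm
  · filter_upwards [hUe] with z hz hz0
    have h1 := Λ.weierstrassPExcept_def ⟨0, zero_mem _⟩ z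
    simp only [sub_zero] at h1
    rw [← hz, h1]
    field_simp
    ring

theorem zeta_even_germ : ∃ W : ℂ → ℂ, AnalyticAt ℂ W 0 ∧
    ∀ᶠ z in 𝓝 (0 : ℂ), z ≠ 0 → zeta Λ z = W (z ^ 2) / z := by
  have hd := differentiable_Pi' Λ
  have hz : AnalyticAt ℂ (zreg Λ) 0 :=
    (hd.analyticAt 0).deriv.div (hd.analyticAt 0) (by rw [Pi'_zero]; exact one_ne_zero)
  have hk : AnalyticAt ℂ (fun z => 1 + z * zreg Λ z) 0 := analyticAt_const.add (analyticAt_id.mul hz)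
  obtain ⟨W, hW, hWe⟩ := even_germ hk (by
    filter_upwards [ev_notMem Λ] with z hz
    rcases eq_or_ne z 0 with rfl | h0
    · simp
    · have h1 : -z ∉ Λ.lattice := fun h' => hz h0 (by simpa using neg_mem h')
      rw [zreg_eq h1, zreg_eq (hz h0), zeta_neg]
      field_simp
      ring)
  refine ⟨W, hW, ?_⟩
  filter_upwards [hWe, ev_notMem Λ] with z hz hz' hz0
  rw [← hz, zreg_eq (hz' hz0)]
  field_simp
  ring

/-- the inverse of `℘` near its pole -/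
theorem inv_wp : ∃ G G₁ : ℂ → ℂ, AnalyticAt ℂ G 0 ∧ AnalyticAt ℂ G₁ 0 ∧ G 0 = 1 ∧
    ∀ᶠ τ in 𝓝 (0 : ℂ), τ ≠ 0 → τ * G (τ ^ 2) ∉ Λ.lattice ∧ ℘[Λ] (τ * G (τ ^ 2)) = (τ ^ 2)⁻¹ ∧
      zeta Λ (τ * G (τ ^ 2)) = τ⁻¹ * G₁ (τ ^ 2) := by
  obtain ⟨U, hU, hU1, hUe⟩ := wp_even_germ Λ
  obtain ⟨W, hW, hWe⟩ := zeta_even_germ Λ
  obtain ⟨ψ, hψ, hψ0, hψe⟩ := inv_germ hU hU1
  have hUψ : AnalyticAt ℂ (fun s => U (ψ s)) 0 := by
    refine AnalyticAt.fun_comp (g := U) ?_ hψ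
    rw [hψ0]; exact hU
  obtain ⟨G, hG, hG0, hGe⟩ := root_germ hUψ (by rw [hψ0, hU1])
  have hWψ : AnalyticAt ℂ (fun s => W (ψ s)) 0 := by
    refine AnalyticAt.fun_comp (g := W) ?_ hψ
    rw [hψ0]; exact hW
  have hG₁ : AnalyticAt ℂ (fun s => W (ψ s) / G s) 0 := hWψ.div hG (by rw [hG0]; exact one_ne_zero)
  have hsq : Tendsto (fun τ : ℂ => τ ^ 2) (𝓝 0) (𝓝 0) := by
    have := (continuous_pow (M := ℂ) 2).tendsto 0
    simpa using this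
  have hz : Tendsto (fun τ : ℂ => τ * G (τ ^ 2)) (𝓝 0) (𝓝 0) := by
    have h1 : Tendsto (fun τ : ℂ => G (τ ^ 2)) (𝓝 0) (𝓝 1) := by
      have := hG.continuousAt.tendsto
      rw [hG0] at this
      exact this.comp hsq
    have h2 := (continuous_id (X := ℂ)).tendsto 0 |>.mul h1
    simpa using h2
  have hGne : ∀ᶠ τ in 𝓝 (0 : ℂ), G (τ ^ 2) ≠ 0 := by
    have h1 : Tendsto (fun τ : ℂ => G (τ ^ 2)) (𝓝 0) (𝓝 1) := by
      have := hG.continuousAt.tendsto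
      rw [hG0] at this
      exact this.comp hsq
    exact h1.eventually_ne one_ne_zero
  refine ⟨G, fun s => W (ψ s) / G s, hG, hG₁, hG0, ?_⟩
  filter_upwards [hGne, hz.eventually hUe, hz.eventually hWe, hz.eventually (ev_notMem Λ), hsq.eventually hψe,
    hsq.eventually hGe] with τ h1 h2 h3 h4 h5 h6 hτ
  have hne : τ * G (τ ^ 2) ≠ 0 := mul_ne_zero hτ h1
  have hzsq : (τ * G (τ ^ 2)) ^ 2 = ψ (τ ^ 2) := by rw [mul_pow, h6, ← h5]
  refine ⟨h4 hne, ?_, ?_⟩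
  · rw [h2 hne, hzsq]
    have h7 : U (ψ (τ ^ 2)) ≠ 0 := by rw [← h6]; exact pow_ne_zero 2 h1
    have h8 : ψ (τ ^ 2) = τ ^ 2 * U (ψ (τ ^ 2)) := h5
    generalize U (ψ (τ ^ 2)) = u at h7 h8 ⊢
    rw [h8]
    field_simp
  · rw [h3 hne, hzsq]
    field_simp

end Pool.Agent.P8H63.SE
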