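import Mathlib

/-!
# Project SE (helper40): packages KEY and SIM, polynomial algebra (helper63)
-/

set_option autoImplicit false

namespace Pool.Agent.P8H63.SE

open Polynomial

section
variable {K : Type} [Field K]

/-- division by the greatest common divisor -/
theorem to_coprime (P Q : K[X]) (hQ : Q ≠ 0) :
    ∃ g P1 Q1 : K[X], g ≠ 0 ∧ IsCoprime P1 Q1 ∧ P = g * P1 ∧ Q = g * Q1 := by
  classical
  have hg0 : EuclideanDomain.gcd P Q ≠ 0 := by
    intro h0
    exact hQ ((EuclideanDomain.gcd_eq_zero_iff.1 h0).2)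
  obtain ⟨P1, hP1⟩ := EuclideanDomain.gcd_dvd_left P Q
  obtain ⟨Q1, hQ1⟩ := EuclideanDomain.gcd_dvd_right P Q
  refine ⟨_, P1, Q1, hg0, ?_, hP1, hQ1⟩
  have hb := EuclideanDomain.gcd_eq_gcd_ab P Q
  refine ⟨EuclideanDomain.gcdA P Q, EuclideanDomain.gcdB P Q, ?_⟩
  apply mul_left_cancel₀ hg0
  calc EuclideanDomain.gcd P Q * (EuclideanDomain.gcdA P Q * P1 + EuclideanDomain.gcdB P Q * Q1) =
        (EuclideanDomain.gcd P Q * P1) * EuclideanDomain.gcdA P Q +
        (EuclideanDomain.gcd P Q * Q1) * EuclideanDomain.gcdB P Q := by ring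
    _ = P * EuclideanDomain.gcdA P Q + Q * EuclideanDomain.gcdB P Q := by rw [← hP1, ← hQ1]
    _ = EuclideanDomain.gcd P Q * 1 := by rw [mul_one]; exact hb.symm

theorem not_dvd_of_coprime {π B Q : K[X]} (hπ : Prime π) (h : IsCoprime B Q) (hQ : π ∣ Q) : ¬ π ∣ B := by
  intro hd2
  obtain ⟨u, v, huv⟩ := h
  exact hπ.not_isUnit (isUnit_of_dvd_one (huv ▸ dvd_add (hd2.mul_left u) (hQ.mul_left v)))

variable [CharZero K]

theorem not_dvd_der {π : K[X]} (h : Irreducible π) : ¬ π ∣ derivative π := by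
  intro hd
  have h1 : derivative π ≠ 0 := by
    intro h0
    have := Polynomial.derivative_eq_zero.1 h0
    exact (Irreducible.natDegree_pos h).ne' this
  exact absurd (Polynomial.degree_le_of_dvd hd h1) (not_le.mpr (degree_derivative_lt h.ne_zero))

theorem not_dvd_const {π : K[X]} (h : Prime π) {c : K} (hc : c ≠ 0) : ¬ π ∣ C c := by
  intro hd
  exact h.not_isUnit (isUnit_of_dvd_unit hd (isUnit_C.2 (isUnit_iff_ne_zero.2 hc)))

theorem der_pow_mul (π R : K[X]) (j : ℕ) : derivative (π ^ (j + 1) * R) =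
    π ^ j * (C ((j : K) + 1) * derivative π * R + π * derivative R) := by
  rw [derivative_mul, derivative_pow, Nat.add_sub_cancel]
  push_cast
  simp only [map_add, map_natCast, map_one]
  ring

/-- the denominator is constant -/
theorem no_pole {F Λ B Q W : K[X]} (hF : Squarefree F)
    (hres : ∀ π : K[X], Irreducible π → π ∣ F → ∃ a : ℚ, (∀ n : ℤ, a ≠ n) ∧ π ∣ Λ - C (a : K) * derivative F)
    (hQ : Q ≠ 0) (hco : IsCoprime B Q)
    (h : F * (derivative B * Q - B * derivative Q) - Λ * B * Q = W * Q * Q * F) : IsUnit Q := by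
  by_contra hu
  obtain ⟨π, hπi, hπQ⟩ := WfDvdMonoid.exists_irreducible_factor hu hQ
  have hπ : Prime π := hπi.prime
  have hB : ¬ π ∣ B := not_dvd_of_coprime hπ hco hπQ
  have hd := not_dvd_der hπi
  obtain ⟨k, R, hR, hQR⟩ := WfDvdMonoid.max_power_factor hQ hπi
  have hk : k ≠ 0 := by
    rintro rfl
    apply hR
    rw [pow_zero, one_mul] at hQR
    rw [← hQR]
    exact hπQ
  obtain ⟨j, rfl⟩ := Nat.exists_eq_succ_of_ne_zero hk
  have hQ' : derivative Q = π ^ j * (C ((j : K) + 1) * derivative π * R + π * derivative R) := by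
    rw [hQR]
    exact der_pow_mul π R j
  have hj0 : ((j : K) + 1) ≠ 0 := by exact_mod_cast Nat.succ_ne_zero j
  have h1 : π ^ j * (F * B * (C ((j : K) + 1) * derivative π * R)) =
      π ^ j * (π * (F * derivative B * R - F * B * derivative R - Λ * B * R - W * π ^ (j + 1) * R * R * F)) := by
    have h2 := h
    rw [hQ', hQR] at h2
    simp only [Nat.succ_eq_add_one] at h2
    linear_combination (-1 : K[X]) * h2
  have h3 := mul_left_cancel₀ (pow_ne_zero j hπ.ne_zero) h1
  have h4 : π ∣ F * B * (C ((j : K) + 1) * derivative π * R) := ⟨_, h3⟩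
  by_cases hπF : π ∣ F
  · obtain ⟨a, ha, haπ⟩ := hres π hπi hπF
    obtain ⟨F1, hF1⟩ := hπF
    have hF1π : ¬ π ∣ F1 := by
      rintro ⟨F2, hF2⟩
      exact hπ.not_isUnit (hF π ⟨F2, by rw [hF1, hF2]; ring⟩)
    have hF' : derivative F = derivative π * F1 + π * derivative F1 := by rw [hF1, derivative_mul]
    obtain ⟨L, hL⟩ := haπ
    have h5 : π * (C ((j : K) + 1 + (a : K)) * (F1 * (B * (derivative π * R)))) =
        π * (π * (F1 * derivative B * R - F1 * B * derivative R - L * B * R - C (a : K) * derivative F1 * B * R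
          - W * π ^ (j + 1) * R * R * F1)) := by
      rw [map_add]
      have hL' : Λ = C (a : K) * derivative F + π * L := by rw [← hL]; ring
      rw [hL', hF', hF1] at h3
      linear_combination h3
    have h6 := mul_left_cancel₀ hπ.ne_zero h5
    have h7 : π ∣ C ((j : K) + 1 + (a : K)) * (F1 * (B * (derivative π * R))) := ⟨_, h6⟩
    rcases hπ.dvd_or_dvd h7 with h8 | h8
    · refine not_dvd_const hπ ?_ h8
      intro h0
      apply ha (-((j : ℤ) + 1))
      have h9 : (((j : ℚ) + 1 + a : ℚ) : K) = ((0 : ℚ) : K) := by push_cast; exact h0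
      have h10 := Rat.cast_injective h9
      push_cast
      linarith
    · rcases hπ.dvd_or_dvd h8 with h8 | h8
      · exact hF1π h8
      · rcases hπ.dvd_or_dvd h8 with h8 | h8
        · exact hB h8
        · rcases hπ.dvd_or_dvd h8 with h8 | h8
          · exact hd h8
          · exact hR h8
  · rcases hπ.dvd_or_dvd h4 with h5 | h5
    · rcases hπ.dvd_or_dvd h5 with h6 | h6
      · exact hπF h6
      · exact hB h6
    · rcases hπ.dvd_or_dvd h5 with h6 | h6
      · rcases hπ.dvd_or_dvd h6 with h7 | h7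
        · exact not_dvd_const hπ hj0 h7
        · exact hd h7
      · exact hR h6

theorem key_aux {F Λ B Q W : K[X]} {A : ℚ} (hF : Squarefree F)
    (hres : ∀ π : K[X], Irreducible π → π ∣ F → ∃ a : ℚ, (∀ n : ℤ, a ≠ n) ∧ π ∣ Λ - C (a : K) * derivative F)
    (hΛ : Λ.natDegree < F.natDegree) (hΛA : Λ.coeff (F.natDegree - 1) = (A : K) * F.leadingCoeff)
    (hA : ∀ n : ℤ, A ≠ n)
    (hQ : Q ≠ 0) (hW : W.natDegree + 2 ≤ F.natDegree) (hco : IsCoprime B Q)
    (h : F * (derivative B * Q - B * derivative Q) - Λ * B * Q = W * Q * Q * F) : W = 0 := by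
  have hF0 : F ≠ 0 := by
    rintro rfl
    simp at hΛ
  obtain ⟨q, hq, rfl⟩ := Polynomial.isUnit_iff.1 (no_pole hF hres hQ hco h)
  have hq0 : q ≠ 0 := hq.ne_zero
  have hC : (C q : K[X]) ≠ 0 := C_ne_zero.2 hq0
  have h1 : F * derivative B - Λ * B = W * C q * F := by
    apply mul_left_cancel₀ hC
    rw [derivative_C] at h
    linear_combination h
  have hcop : IsCoprime Λ F := by
    refine isCoprime_of_irreducible_dvd (fun h0 => hF0 h0.2) ?_
    intro π hπi hπΛ hπF
    have hπ := hπi.prime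
    obtain ⟨a, ha, haπ⟩ := hres π hπi hπF
    have h2 : π ∣ C (a : K) * derivative F := by
      have := dvd_sub hπΛ haπ
      simpa using this
    obtain ⟨F1, hF1⟩ := hπF
    have hF1π : ¬ π ∣ F1 := by
      rintro ⟨F2, hF2⟩
      exact hπ.not_isUnit (hF π ⟨F2, by rw [hF1, hF2]; ring⟩)
    have hF' : derivative F = derivative π * F1 + π * derivative F1 := by rw [hF1, derivative_mul]
    have ha0 : (a : K) ≠ 0 := by
      intro h0
      apply ha 0
      have : a = 0 := by exact_mod_cast h0
      rw [this]; simp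
    rcases hπ.dvd_or_dvd h2 with h3 | h3
    · exact not_dvd_const hπ ha0 h3
    · rw [hF'] at h3
      have h4 : π ∣ derivative π * F1 := (dvd_add_left (dvd_mul_right π _)).1 h3
      rcases hπ.dvd_or_dvd h4 with h5 | h5
      · exact not_dvd_der hπi h5
      · exact hF1π h5
  have hFB : F ∣ B := by
    have h2 : F ∣ Λ * B := ⟨derivative B - W * C q, by linear_combination (-1 : K[X]) * h1⟩
    exact hcop.symm.dvd_of_dvd_mul_left h2
  by_cases hB : B = 0
  · rw [hB] at h1
    simp only [derivative_zero, mul_zero, sub_zero] at h1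
    have h2 := h1.symm
    rcases mul_eq_zero.1 h2 with h3 | h3
    · rcases mul_eq_zero.1 h3 with h4 | h4
      · exact h4
      · exact absurd h4 hC
    · exact absurd h3 hF0
  · exfalso
    have hdeg : F.natDegree ≤ B.natDegree := natDegree_le_of_dvd hFB hB
    set d := F.natDegree with hd
    set e := B.natDegree with he
    obtain ⟨d', hd'⟩ : ∃ d', d = d' + 2 := ⟨d - 2, by omega⟩
    obtain ⟨e', he'⟩ : ∃ e', e = e' + 2 := ⟨e - 2, by omega⟩
    have hc := congrArg (fun p : K[X] => p.coeff (d + (e - 1))) h1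
    simp only [coeff_sub] at hc
    have hB' : (derivative B).natDegree ≤ e - 1 := natDegree_derivative_le B
    have hc1 : (F * derivative B).coeff (d + (e - 1)) = F.leadingCoeff * (B.leadingCoeff * e) := by
      rw [coeff_mul_add_eq_of_natDegree_le le_rfl hB', coeff_derivative]
      have : e - 1 + 1 = e := by omega
      rw [this]
      have h2 : ((e - 1 : ℕ) : K) + 1 = (e : K) := by
        have : ((e - 1 + 1 : ℕ) : K) = (e : K) := by rw [this]
        rw [← this]; push_cast; ring
      rw [h2]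
      rfl
    have hc2 : (Λ * B).coeff (d + (e - 1)) = (A : K) * F.leadingCoeff * B.leadingCoeff := by
      have : d + (e - 1) = (d - 1) + e := by omega
      rw [this, coeff_mul_add_eq_of_natDegree_le (by omega) le_rfl, hΛA]
      rfl
    have hc3 : (W * C q * F).coeff (d + (e - 1)) = 0 := by
      apply coeff_eq_zero_of_natDegree_lt
      calc (W * C q * F).natDegree ≤ (W * C q).natDegree + F.natDegree := natDegree_mul_le
        _ ≤ W.natDegree + F.natDegree := by gcongr; exact natDegree_mul_C_le W q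
        _ < d + (e - 1) := by omega
    rw [hc1, hc2, hc3] at hc
    have h2 : (F.leadingCoeff * B.leadingCoeff) * ((e : K) - (A : K)) = 0 := by linear_combination hc
    rcases mul_eq_zero.1 h2 with h3 | h3
    · exact mul_ne_zero (leadingCoeff_ne_zero.2 hF0) (leadingCoeff_ne_zero.2 hB) h3
    · apply hA e
      have h4 : ((A : ℚ) : K) = ((e : ℚ) : K) := by
        push_cast
        linear_combination (-1 : K) * h3
      have h5 := Rat.cast_injective h4
      rw [h5]
      push_cast
      rfl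

theorem key {F Λ B Q W : K[X]} {A : ℚ} (hF : Squarefree F)
    (hres : ∀ π : K[X], Irreducible π → π ∣ F → ∃ a : ℚ, (∀ n : ℤ, a ≠ n) ∧ π ∣ Λ - C (a : K) * derivative F)
    (hΛ : Λ.natDegree < F.natDegree) (hΛA : Λ.coeff (F.natDegree - 1) = (A : K) * F.leadingCoeff)
    (hA : ∀ n : ℤ, A ≠ n)
    (hQ : Q ≠ 0) (hW : W.natDegree + 2 ≤ F.natDegree)
    (h : F * (derivative B * Q - B * derivative Q) - Λ * B * Q = W * Q * Q * F) : W = 0 := by
  obtain ⟨g, B1, Q1, hg0, hco, rfl, rfl⟩ := to_coprime B Q hQ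
  refine key_aux hF hres hΛ hΛA hA (right_ne_zero_of_mul hQ) hW hco ?_
  apply mul_left_cancel₀ (mul_ne_zero hg0 hg0)
  rw [derivative_mul, derivative_mul] at h
  linear_combination h

/-! ### Simple poles -/

theorem simple_aux {r : ℕ} (x e : Fin r → K) (hx : Function.Injective x) (P Q : K[X]) (hPQ : IsCoprime P Q)
    (h : (derivative P * Q - P * derivative Q) * ∏ i, (X + C (x i)) =
      Q * Q * ∑ i, C (e i) * ∏ j ∈ Finset.univ.erase i, (X + C (x j))) (hQ : Q ≠ 0) (i : Fin r) : e i = 0 := by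
  classical
  set M : K[X] := ∏ j ∈ Finset.univ.erase i, (X + C (x j)) with hM
  have hprod : ∏ j, (X + C (x j)) = (X + C (x i)) * M := (Finset.mul_prod_erase _ _ (Finset.mem_univ i)).symm
  have hMi : M.eval (-(x i)) ≠ 0 := by
    rw [hM, eval_prod]
    refine Finset.prod_ne_zero_iff.2 fun j hj => ?_
    rw [eval_add, eval_X, eval_C]
    intro h0
    exact (Finset.ne_of_mem_erase hj) (hx (by linear_combination h0))
  have hroot : ∀ p : K[X], (X + C (x i)) ∣ p ↔ p.eval (-(x i)) = 0 := by
    intro p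
    have h1 : (X + C (x i) : K[X]) = X - C (-(x i)) := by rw [C_neg, sub_neg_eq_add]
    rw [h1, dvd_iff_isRoot]
    rfl
  have hπ : Prime (X + C (x i) : K[X]) := by
    have h1 : (X + C (x i) : K[X]) = X - C (-(x i)) := by rw [C_neg, sub_neg_eq_add]
    rw [h1]
    exact prime_X_sub_C _
  have hQi : ¬ (X + C (x i)) ∣ Q := by
    intro hd
    have hPi : ¬ (X + C (x i)) ∣ P := not_dvd_of_coprime hπ hPQ hd
    obtain ⟨k, R, hR, hQR⟩ := WfDvdMonoid.max_power_factor hQ hπ.irreducible
    have hk : k ≠ 0 := by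
      rintro rfl
      apply hR
      rw [pow_zero, one_mul] at hQR
      rw [← hQR]
      exact hd
    obtain ⟨j, rfl⟩ := Nat.exists_eq_succ_of_ne_zero hk
    have hQ' : derivative Q = (X + C (x i)) ^ j * (C ((j : K) + 1) * R + (X + C (x i)) * derivative R) := by
      rw [hQR, Nat.succ_eq_add_one, der_pow_mul, derivative_add, derivative_X, derivative_C, add_zero, mul_one]
    have h1 : (X + C (x i)) ^ (j + 1) * ((X + C (x i)) * (derivative P * R * M - P * derivative R * M) -
        P * (C ((j : K) + 1)) * R * M) =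
        (X + C (x i)) ^ (j + 1) * ((X + C (x i)) * ((X + C (x i)) ^ j * R * R *
          ∑ i, C (e i) * ∏ j ∈ Finset.univ.erase i, (X + C (x j)))) := by
      have h2 := h
      rw [hprod, hQ', hQR] at h2
      simp only [Nat.succ_eq_add_one] at h2
      linear_combination h2
    have h3 := mul_left_cancel₀ (pow_ne_zero (j + 1) hπ.ne_zero) h1
    have h4 : (X + C (x i)) ∣ P * (C ((j : K) + 1)) * R * M := by
      refine ⟨(derivative P * R * M - P * derivative R * M) - (X + C (x i)) ^ j * R * R *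
          ∑ i, C (e i) * ∏ j ∈ Finset.univ.erase i, (X + C (x j)), ?_⟩
      linear_combination (-1 : K[X]) * h3
    rcases hπ.dvd_or_dvd h4 with h5 | h5
    · rcases hπ.dvd_or_dvd h5 with h6 | h6
      · rcases hπ.dvd_or_dvd h6 with h7 | h7
        · exact hPi h7
        · exact not_dvd_const hπ (by exact_mod_cast Nat.succ_ne_zero j) h7
      · exact hR h6
    · exact hMi ((hroot M).1 h5)
  have h1 := congrArg (eval (-(x i))) h
  rw [hprod] at h1
  simp only [eval_mul, eval_add, eval_X, eval_C, eval_sub, neg_add_cancel, zero_mul, mul_zero] at h1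
  have h2 : Q.eval (-(x i)) ≠ 0 := fun h0 => hQi ((hroot Q).2 h0)
  have h3 : (∑ i, C (e i) * ∏ j ∈ Finset.univ.erase i, (X + C (x j))).eval (-(x i)) = e i * M.eval (-(x i)) := by
    rw [eval_finsetSum, Finset.sum_eq_single i]
    · rw [eval_mul, eval_C]
    · intro k _ hk
      rw [eval_mul, eval_prod, Finset.prod_eq_zero (i := i) (Finset.mem_erase.2 ⟨hk.symm, Finset.mem_univ _⟩), mul_zero]
      simp
    · simp
  rw [h3] at h1
  have h4 := h1.symm
  rcases mul_eq_zero.1 h4 with h5 | h5
  · exact absurd h5 (mul_ne_zero h2 h2)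
  · rcases mul_eq_zero.1 h5 with h6 | h6
    · exact h6
    · exact absurd h6 hMi

theorem simple {r : ℕ} (x e : Fin r → K) (hx : Function.Injective x) (P Q : K[X]) (hQ : Q ≠ 0)
    (h : (derivative P * Q - P * derivative Q) * ∏ i, (X + C (x i)) =
      Q * Q * ∑ i, C (e i) * ∏ j ∈ Finset.univ.erase i, (X + C (x j))) : e = 0 := by
  classical
  obtain ⟨g, P1, Q1, hg0, hco, rfl, rfl⟩ := to_coprime P Q hQ
  have hQ1 : Q1 ≠ 0 := right_ne_zero_of_mul hQ
  funext i
  refine simple_aux x e hx P1 Q1 hco ?_ hQ1 i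
  apply mul_left_cancel₀ (mul_ne_zero hg0 hg0)
  rw [derivative_mul, derivative_mul] at h
  linear_combination h

end

end Pool.Agent.P8H63.SE
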