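import Pool.Agent.P8H40.SE.Stm
import Pool.Agent.P8H63.SE.Key0

/-!
# Project SE (helper40): packages KEY and SIM (helper63)
-/

set_option autoImplicit false

namespace Pool.Agent.P8H63.SE

theorem key_thm : Pool.Agent.P8H40.SE.S_KEY :=
  fun _ _ _ _ _ _ _ _ _ hF hres hΛ hΛA hA hQ hW h => key hF hres hΛ hΛA hA hQ hW h

theorem sim_thm : Pool.Agent.P8H40.SE.S_SIM :=
  fun _ _ _ _ x c hx B Q hQ h => simple x c hx B Q hQ h

end Pool.Agent.P8H63.SE
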